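import Pool.Agent.H74.ThinAlt
import Pool.Agent.H74.ThinComb

namespace Pool.Agent.Results.MP_9adac4_al.NoWH

open Module Matrix Pool.Agent.H74.Thin TensorProduct

attribute [local instance 100] LieRing.ofAssociativeRing

variable {K : Type*} [Field K] [CharP K 2]

def dl (a b p : Fin 6) : ZMod 2 := (if a = p then 1 else 0) + (if b = p then 1 else 0)

def om (p : Fin 6) : Fin 4 → ZMod 2 := fun k => dl k.castSucc.castSucc k.succ.castSucc p

def cs (K : Type*) [Field K] (a : ZMod 2) : K := ((a.val : ℕ) : K)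

lemma cs_add (a b : ZMod 2) : cs K (a + b) = cs K a + cs K b := cast_add a b

omit [CharP K 2] in
lemma cs_zero : cs K 0 = 0 := by simp [cs]

omit [CharP K 2] in
lemma cs_one : cs K 1 = 1 := by
  show ((1 : ℕ) : K) = 1
  simp

omit [CharP K 2] in
lemma cs_mul (a b : ZMod 2) : cs K (a * b) = cs K a * cs K b := by
  have h : ∀ a : ZMod 2, a = 0 ∨ a = 1 := by decide
  rcases h a with rfl | rfl <;> rcases h b with rfl | rfl <;> simp [cs_zero, cs_one]

lemma cs_dl (a b p : Fin 6) :
    cs K (dl a b p) = (if a = p then 1 else 0) + (if b = p then 1 else 0) := by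
  rw [dl, cs_add]
  congr 1 <;> split_ifs <;> simp [cs_zero, cs_one]

lemma E_sq {a b : Fin 6} (hab : a ≠ b) :
    (E K a b).1 * (E K a b).1 = diagonal (fun p => cs K (dl a b p)) := by
  ext i j
  rw [mul_E, E_val, E_val, diagonal_apply, cs_dl]
  by_cases h1 : a = i <;> by_cases h2 : b = i <;> by_cases h3 : a = j <;> by_cases h4 : b = j <;>
    by_cases h5 : i = j <;> simp_all [eq_comm]

variable (K) in
def tau (a b : Fin 6) : Module.End K (Alt K) :=
  LieAlgebra.ad K (Alt K) (E K a b) * LieAlgebra.ad K (Alt K) (E K a b)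

lemma tau_eq (a b : Fin 6) :
    tau K a b = phi K ⟨_, sq_mem_sym0 ⟨(E K a b).1, alt_mem_sym0 _⟩⟩ := by
  rw [tau, ad_eq_phi, phi_sq]

lemma tau_val {a b : Fin 6} (hab : a ≠ b) (X : Alt K) (i j : Fin 6) :
    (tau K a b X).1 i j = cs K (dl a b i + dl a b j) * X.1 i j := by
  rw [tau_eq, phi_val]
  show ((E K a b).1 * (E K a b).1 * X.1 - X.1 * ((E K a b).1 * (E K a b).1)) i j = _
  rw [E_sq hab, Matrix.sub_apply, diagonal_mul, mul_diagonal, cs_add, sub_eq_add_neg,
    neg_end (K := K)]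
  ring

variable (K) in
def tt (k : Fin 4) : Module.End K (Alt K) := tau K k.castSucc.castSucc k.succ.castSucc

lemma tt_val (k : Fin 4) (X : Alt K) (i j : Fin 6) :
    (tt K k X).1 i j = cs K ((om i + om j) k) * X.1 i j :=
  tau_val (by revert k; decide) X i j

lemma alt_ext {X Y : Alt K} (h : ∀ i j, X.1 i j = Y.1 i j) : X = Y :=
  Subtype.ext (Matrix.ext h)

lemma tt_env (k : Fin 4) : tt K k ∈ env K (Alt K) := sq_mem_env (ad_mem_env _)

lemma tt_comm (k l : Fin 4) : tt K k * tt K l = tt K l * tt K k := by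
  ext1 X
  apply alt_ext
  intro i j
  simp only [Module.End.mul_apply, tt_val]
  ring

lemma tt_sq (k : Fin 4) : tt K k * tt K k = tt K k := by
  ext1 X
  apply alt_ext
  intro i j
  have h : ∀ a : ZMod 2, a * a = a := by decide
  simp only [Module.End.mul_apply, tt_val]
  rw [← mul_assoc, ← cs_mul, h]

lemma sum_tt_val (c : Fin 4 → K) (X : Alt K) (i j : Fin 6) :
    ((∑ k, c k • tt K k) X).1 i j = (∑ k, c k * cs K ((om i + om j) k)) * X.1 i j := by
  simp only [Fin.sum_univ_four, LinearMap.add_apply, LinearMap.smul_apply]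
  show c 0 * (tt K 0 X).1 i j + c 1 * (tt K 1 X).1 i j + c 2 * (tt K 2 X).1 i j +
    c 3 * (tt K 3 X).1 i j = _
  simp only [tt_val]
  ring

lemma E_self {p q : Fin 6} (h : p ≠ q) : (E K p q).1 p q = 1 := by
  rw [E_val]; simp [h]

lemma E_ne {p q : Fin 6} (h : p ≠ q) : E K p q ≠ 0 := by
  intro h0
  have := E_self (K := K) h
  rw [h0] at this
  simp at this

lemma tt_indep : LinearIndependent K (tt K) := by
  rw [Fintype.linearIndependent_iff]
  intro c hc k
  obtain ⟨p, q, hpq, h⟩ : ∃ p q : Fin 6, p ≠ q ∧ om p + om q = Pi.single k 1 := by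
    revert k; decide
  have := sum_tt_val c (E K p q) p q
  rw [hc, E_self hpq, h, mul_one, Finset.sum_eq_single k] at this
  · simpa [cs_one] using this.symm
  · intro l _ hl
    simp [hl, cs_zero]
  · simp

lemma lie_E_val (X : Alt K) (p q i j : Fin 6) : (⁅X, E K p q⁆ : Alt K).1 i j =
    (if q = j then X.1 i p else 0) + (if p = j then X.1 i q else 0) -
      ((if p = i then X.1 q j else 0) + (if q = i then X.1 p j else 0)) := by
  rw [lie_val, Matrix.sub_apply, mul_E, E_mul]

lemma tt_inter (X : Alt K) (h : LieAlgebra.ad K (Alt K) X ∈ Submodule.span K (Set.range (tt K))) :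
    LieAlgebra.ad K (Alt K) X = 0 := by
  obtain ⟨c, hc⟩ := (Submodule.mem_span_range_iff_exists_fun K).1 h
  have hX : X = 0 := by
    apply alt_ext
    intro i p
    by_cases hip : i = p
    · rw [hip, X.2.2]; rfl
    obtain ⟨q, h1, h2⟩ : ∃ q, q ≠ i ∧ q ≠ p := by
      clear hip; revert i p; decide
    have h3 := sum_tt_val c (E K p q) i q
    rw [hc, LieAlgebra.ad_apply, lie_E_val, E_val] at h3
    simpa [h1, h2.symm, Ne.symm hip] using h3
  rw [hX]
  ext; simp

lemma mem_wt_iff {α : Fin 4 → ZMod 2} {X : Alt K} :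
    X ∈ wt (tt K) α ↔ ∀ i j, X.1 i j ≠ 0 → om i + om j = α := by
  rw [mem_wt]
  constructor
  · intro h i j hij
    funext k
    have := congrFun (congrFun (congrArg Subtype.val (h k)) i) j
    rw [tt_val] at this
    exact cast_inj (K := K) (mul_right_cancel₀ hij this)
  · intro h k
    apply alt_ext
    intro i j
    rw [tt_val]
    show _ = cs K (α k) * X.1 i j
    by_cases hij : X.1 i j = 0
    · simp [hij]
    · rw [h i j hij]

lemma om_inj : ∀ p q r s : Fin 6, p ≠ q → om r + om s = om p + om q →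
    (r = p ∧ s = q) ∨ (r = q ∧ s = p) := by decide +kernel

lemma om_surj : ∀ α : Fin 4 → ZMod 2, α ≠ 0 → ∃ p q : Fin 6, p < q ∧ om p + om q = α := by
  decide +kernel

lemma om_ne : ∀ p q : Fin 6, om p + om q = 0 → p = q := by decide +kernel

lemma wt_zero : wt (tt K) 0 = ⊥ := by
  rw [Submodule.eq_bot_iff]
  intro X hX
  apply alt_ext
  intro i j
  by_contra hij
  have := om_ne i j (mem_wt_iff.1 hX i j hij)
  subst this
  exact hij (X.2.2 i)

lemma eq_smul_E {p q : Fin 6} (hpq : p ≠ q) {X : Alt K}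
    (h : ∀ i j, X.1 i j ≠ 0 → (i = p ∧ j = q) ∨ (i = q ∧ j = p)) : X = X.1 p q • E K p q := by
  apply alt_ext
  intro i j
  show _ = X.1 p q * (E K p q).1 i j
  rw [E_val]
  by_cases h1 : p = i ∧ q = j
  · obtain ⟨rfl, rfl⟩ := h1
    simp [hpq]
  · by_cases h2 : q = i ∧ p = j
    · obtain ⟨rfl, rfl⟩ := h2
      simp [hpq, alt_symm X q p]
    · rw [if_neg h1, if_neg h2, add_zero, mul_zero]
      by_contra hij
      rcases h i j hij with ⟨rfl, rfl⟩ | ⟨rfl, rfl⟩
      · exact h1 ⟨rfl, rfl⟩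
      · exact h2 ⟨rfl, rfl⟩

lemma wt_eq {p q : Fin 6} (hpq : p ≠ q) : wt (tt K) (om p + om q) = K ∙ E K p q := by
  apply le_antisymm
  · intro X hX
    rw [eq_smul_E hpq (fun i j hij => om_inj p q i j hpq (mem_wt_iff.1 hX i j hij))]
    exact Submodule.smul_mem _ _ (Submodule.mem_span_singleton_self _)
  · rw [Submodule.span_singleton_le_iff_mem, mem_wt_iff]
    intro i j hij
    rw [E_val] at hij
    by_cases h1 : p = i ∧ q = j
    · obtain ⟨rfl, rfl⟩ := h1; rfl
    · by_cases h2 : q = i ∧ p = j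
      · obtain ⟨rfl, rfl⟩ := h2; exact add_comm _ _
      · simp [h1, h2] at hij

abbrev P := {pq : Fin 6 × Fin 6 // pq.1 < pq.2}

variable (K) in
def ee (pq : P) : Alt K := E K pq.1.1 pq.1.2

lemma ee_indep : LinearIndependent K (ee K) := by
  have hind := (wt_indep (K := K) tt_comm).comp (f := fun pq : P => om pq.1.1 + om pq.1.2) (by
    rintro ⟨⟨p, q⟩, h⟩ ⟨⟨r, s⟩, h'⟩ hh
    rcases om_inj r s p q h'.ne hh with ⟨rfl, rfl⟩ | ⟨rfl, rfl⟩
    · rfl
    · exact absurd (lt_trans h h') (lt_irrefl _))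
  refine iSupIndep.linearIndependent _ hind (fun pq => ?_) (fun pq => E_ne pq.2.ne)
  show _ ∈ wt (tt K) (om pq.1.1 + om pq.1.2)
  rw [wt_eq pq.2.ne]
  exact Submodule.mem_span_singleton_self _

lemma eq_sum (X : Alt K) : X = ∑ pq : P, X.1 pq.1.1 pq.1.2 • ee K pq := by
  apply alt_ext
  intro i j
  have h1 : (∑ pq : P, X.1 pq.1.1 pq.1.2 • ee K pq).1 i j =
      ∑ pq : P, X.1 pq.1.1 pq.1.2 * (E K pq.1.1 pq.1.2).1 i j := by
    rw [AddSubmonoidClass.coe_finsetSum, Matrix.sum_apply]
    rfl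
  rw [h1]
  rcases lt_trichotomy i j with h | h | h
  · rw [Finset.sum_eq_single (⟨(i, j), h⟩ : P)]
    · simp [E_self h.ne]
    · rintro ⟨⟨p, q⟩, hpq⟩ _ hne
      rw [E_val, if_neg, if_neg]
      · simp
      · rintro ⟨rfl, rfl⟩; exact absurd (lt_trans h hpq) (lt_irrefl _)
      · rintro ⟨rfl, rfl⟩; exact hne rfl
    · simp
  · subst h
    rw [X.2.2]
    exact (Finset.sum_eq_zero fun pq _ => by rw [(E K _ _).2.2, mul_zero]).symm
  · rw [Finset.sum_eq_single (⟨(j, i), h⟩ : P)]
    · simp [alt_symm (E K j i) i j, E_self h.ne, alt_symm X i j]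
    · rintro ⟨⟨p, q⟩, hpq⟩ _ hne
      rw [E_val, if_neg, if_neg]
      · simp
      · rintro ⟨rfl, rfl⟩; exact hne rfl
      · rintro ⟨rfl, rfl⟩; exact absurd (lt_trans h hpq) (lt_irrefl _)
    · simp

lemma finrank_alt : finrank K (Alt K) = 15 := by
  have hsp : ⊤ ≤ Submodule.span K (Set.range (ee K)) := by
    intro X _
    rw [eq_sum X]
    exact Submodule.sum_mem _ fun pq _ =>
      Submodule.smul_mem _ _ (Submodule.subset_span ⟨pq, rfl⟩)
  rw [finrank_eq_card_basis (Basis.mk ee_indep hsp)]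
  decide

lemma isThin : IsThin (tt K) where
  dim := finrank_alt
  rank := ⟨⟨_, isTorus_span tt_env tt_comm tt_sq, by
    rw [finrank_span_eq_card tt_indep]; simp⟩, by
    rintro m ⟨T, hT, rfl⟩
    exact torus_le T hT⟩
  torus := isTorus_span tt_env tt_comm tt_sq
  indep := tt_indep
  toral := tt_sq
  inter := tt_inter
  zero := wt_zero
  one := by
    intro α hα
    obtain ⟨p, q, h, rfl⟩ := om_surj α hα
    rw [wt_eq h.ne, finrank_span_singleton (E_ne h.ne)]

lemma lie_E {p q s : Fin 6} (hpq : p ≠ q) (hqs : q ≠ s) (hps : p ≠ s) :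
    ⁅E K p q, E K q s⁆ = E K p s := by
  apply alt_ext
  intro i j
  rw [lie_E_val, sub_eq_add_neg, neg_end (K := K)]
  simp only [E_val]
  by_cases h1 : p = i <;> by_cases h2 : q = i <;> by_cases h3 : s = i <;> by_cases h4 : p = j <;>
    by_cases h5 : q = j <;> by_cases h6 : s = j <;> simp_all [eq_comm]

lemma lie_E_zero {p q r s : Fin 6} (h1 : p ≠ r) (h2 : p ≠ s) (h3 : q ≠ r) (h4 : q ≠ s) :
    ⁅E K p q, E K r s⁆ = 0 := by
  apply alt_ext
  intro i j
  rw [lie_E_val]
  simp [E_val, h1, h2, h3, h4]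

lemma isolate : ∀ p q : Fin 6, p ≠ q → ∃ a b c d : Fin 6, p ≠ a ∧ p ≠ b ∧ p ≠ c ∧ p ≠ d ∧
    (dl p a p + dl p a q = 1 ∧ dl p b p + dl p b q = 1 ∧ dl p c p + dl p c q = 1 ∧
      dl p d p + dl p d q = 1) ∧
    ∀ i j : Fin 6, ((i = p ∧ j = q) ∨ (i = q ∧ j = p)) ∨ dl p a i + dl p a j = 0 ∨
      dl p b i + dl p b j = 0 ∨ dl p c i + dl p c j = 0 ∨ dl p d i + dl p d j = 0 := by
  decide +kernel

lemma isSimple : LieAlgebra.IsSimple K (Alt K) := by
  refine ⟨fun J => ?_, ?_⟩
  · by_cases hJ : J = ⊥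
    · exact Or.inl hJ
    right
    obtain ⟨X, hX, hX0⟩ : ∃ w ∈ J, w ≠ 0 := by
      by_contra hcon
      push Not at hcon
      exact hJ ((LieSubmodule.eq_bot_iff J).2 hcon)
    obtain ⟨p, q, hpq⟩ : ∃ p q, X.1 p q ≠ 0 := by
      by_contra hcon
      push Not at hcon
      exact hX0 (alt_ext hcon)
    have hne : p ≠ q := by rintro rfl; exact hpq (X.2.2 p)
    obtain ⟨a, b, c, d, ha, hb, hc, hd, ⟨h1, h2, h3, h4⟩, h5⟩ := isolate p q hne
    have htau : ∀ a b, ∀ Y ∈ J, tau K a b Y ∈ J := fun a b Y hY => J.lie_mem (J.lie_mem hY)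
    set Y := tau K p a (tau K p b (tau K p c (tau K p d X))) with hY
    have hYJ : Y ∈ J := htau _ _ _ (htau _ _ _ (htau _ _ _ (htau _ _ _ hX)))
    have hYv : ∀ i j, Y.1 i j = cs K (dl p a i + dl p a j) * (cs K (dl p b i + dl p b j) *
        (cs K (dl p c i + dl p c j) * (cs K (dl p d i + dl p d j) * X.1 i j))) := by
      intro i j
      rw [hY, tau_val ha, tau_val hb, tau_val hc, tau_val hd]
    have hYe : Y = Y.1 p q • E K p q := by
      refine eq_smul_E hne fun i j hij => ?_
      rw [hYv] at hij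
      rcases h5 i j with h | h | h | h | h
      · exact h
      all_goals simp [h, cs_zero] at hij
    have hYpq : Y.1 p q ≠ 0 := by
      rw [hYv, h1, h2, h3, h4]; simpa [cs_one] using hpq
    have hE : E K p q ∈ J := by
      have := J.smul_mem (Y.1 p q)⁻¹ hYJ
      rw [hYe] at this
      rwa [← hYe, hYe, smul_smul, ← hYe, inv_mul_cancel₀ hYpq, one_smul] at this
    have hstep : ∀ u v w : Fin 6, u ≠ v → w ≠ v → E K u v ∈ J → E K w v ∈ J := by
      intro u v w huv hwv h
      by_cases hwu : w = u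
      · rwa [hwu]
      · rw [← lie_E hwu huv hwv]; exact J.lie_mem h
    have hall : ∀ r s : Fin 6, r ≠ s → E K r s ∈ J := by
      intro r s hrs
      by_cases hrq : r = q
      · subst hrq
        rw [E_symm]
        exact hstep p r s hne hrs.symm hE
      · have h6 := hstep p q r hne hrq hE
        rw [E_symm] at h6
        rw [E_symm]
        exact hstep q r s (Ne.symm hrq) hrs.symm h6
    rw [eq_top_iff]
    intro Z _
    rw [eq_sum Z]
    exact Submodule.sum_mem J.toSubmodule fun pq _ => J.smul_mem _ (hall _ _ pq.2.ne)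
  · intro hab
    have h0 : ⁅E K 0 1, E K 1 2⁆ = 0 := trivial_lie_zero _ _ _ _
    rw [lie_E (by decide) (by decide) (by decide)] at h0
    exact E_ne (by decide) h0

lemma graded_center (M : LieSubalgebra K (Alt K)) (hM : IsGraded (tt K) M)
    (h7 : finrank K M = 7) : ∃ z : M, z ≠ 0 ∧ ∀ x : M, ⁅x, z⁆ = 0 := by
  classical
  obtain ⟨S, hS0, hS⟩ := hM
  let r : Fin 6 → Fin 6 → Bool := fun p q => decide (om p + om q ∈ S)
  have hr : ∀ p q, r p q = true ↔ om p + om q ∈ S := fun p q => decide_eq_true_iff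
  have hpp : ∀ p, om p + om p = 0 := by decide
  have hne : ∀ p q, r p q = true → p ≠ q := by
    rintro p q h rfl
    rw [hr, hpp] at h
    exact hS0 h
  have hmem : ∀ p q, r p q = true → E K p q ∈ M := by
    intro p q h
    show E K p q ∈ M.toSubmodule
    rw [hS]
    refine Submodule.mem_iSup_of_mem _ (Submodule.mem_iSup_of_mem ((hr p q).1 h) ?_)
    rw [wt_eq (hne p q h)]
    exact Submodule.mem_span_singleton_self _
  let F : Finset P := Finset.univ.filter fun pq => r pq.1.1 pq.1.2 = true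
  have hsp : M.toSubmodule = Submodule.span K (Set.range fun pq : F => ee K pq.1) := by
    apply le_antisymm
    · rw [hS, iSup₂_le_iff]
      intro α hα
      obtain ⟨p, q, h, rfl⟩ := om_surj α (by rintro rfl; exact hS0 hα)
      rw [wt_eq h.ne, Submodule.span_singleton_le_iff_mem]
      exact Submodule.subset_span ⟨⟨⟨(p, q), h⟩, by simpa [F, hr] using hα⟩, rfl⟩
    · rw [Submodule.span_le]
      rintro _ ⟨pq, rfl⟩
      exact hmem _ _ (Finset.mem_filter.1 pq.2).2
  have hcard : F.card = 7 := by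
    have h1 : finrank K M.toSubmodule = 7 := h7
    have h2 : LinearIndependent K (fun pq : F => ee K pq.1) :=
      ee_indep.comp _ Subtype.val_injective
    rw [hsp, finrank_span_eq_card h2] at h1
    simpa using h1
  have hvan : ∀ X ∈ M, ∀ p q, r p q = false → X.1 p q = 0 := by
    intro X hX p q hpq
    have hX' : X ∈ M.toSubmodule := hX
    rw [hsp] at hX'
    clear hX
    induction hX' using Submodule.span_induction with
    | mem x hx =>
      obtain ⟨⟨⟨⟨u, v⟩, huv⟩, hF⟩, rfl⟩ := hx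
      have h1 : r u v = true := (Finset.mem_filter.1 hF).2
      show (E K u v).1 p q = 0
      rw [E_val, if_neg, if_neg, add_zero]
      · rintro ⟨rfl, rfl⟩
        have h2 : r v u = true := by rw [hr, add_comm]; exact (hr _ _).1 h1
        simp [h2] at hpq
      · rintro ⟨rfl, rfl⟩
        simp [h1] at hpq
    | zero => rfl
    | add x y _ _ hx hy =>
      show x.1 p q + y.1 p q = 0
      rw [hx, hy, add_zero]
    | smul c x _ hx =>
      show c * x.1 p q = 0
      rw [hx, mul_zero]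
  have hsymm : ∀ p q, r p q = r q p := fun p q => by simp only [r, add_comm]
  obtain ⟨p, q, hpq, hiso⟩ := Pool.Agent.H74.ThinComb.comb r hsymm
    (fun p => by
      by_contra h
      exact hne p p (by simpa using h) rfl)
    (fun p q s hps h1 h2 => by
      by_contra h
      have h3 := M.lie_mem (hmem _ _ h1) (hmem _ _ h2)
      rw [lie_E (hne _ _ h1) (hne _ _ h2) hps] at h3
      have h4 := hvan _ h3 p s (by simpa using h)
      rw [E_self hps] at h4
      exact one_ne_zero h4)
    (by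
      rw [← hcard]
      symm
      refine Finset.card_bij (fun pq _ => pq.1) ?_ ?_ ?_
      · intro pq h
        simp only [Finset.mem_filter, Finset.mem_univ, true_and]
        exact ⟨pq.2, (Finset.mem_filter.1 h).2⟩
      · intro a _ b _ h
        exact Subtype.ext h
      · intro b hb
        simp only [Finset.mem_filter, Finset.mem_univ, true_and] at hb
        exact ⟨⟨b, hb.1⟩, by simp [F, hb.2], rfl⟩)
  refine ⟨⟨E K p q, hmem _ _ hpq⟩, fun h => E_ne (hne _ _ hpq) (congrArg Subtype.val h), ?_⟩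
  intro x
  apply Subtype.ext
  show ⁅x.1, E K p q⁆ = 0
  have h1 : ∀ s, s ≠ p → s ≠ q → x.1.1 p s = 0 ∧ x.1.1 q s = 0 ∧ x.1.1 s p = 0 ∧ x.1.1 s q = 0 := by
    intro s hp hq
    have h2 := hvan _ x.2 _ _ (hiso s hp hq).1
    have h3 := hvan _ x.2 _ _ (hiso s hp hq).2
    exact ⟨h2, h3, by rw [alt_symm, h2], by rw [alt_symm, h3]⟩
  have hpq' := hne _ _ hpq
  have hd := x.1.2.2
  have hs := alt_symm x.1 q p
  apply alt_ext
  intro i j
  rw [lie_E_val]
  show _ = (0 : K)
  by_cases h2 : p = i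
  · subst h2
    by_cases h3 : p = j
    · subst h3; simp [hpq'.symm, hs]
    · by_cases h4 : q = j
      · subst h4; simp [hpq', hpq'.symm, hd]
      · simp [h3, h4, hpq'.symm, h1 j (Ne.symm h3) (Ne.symm h4)]
  · by_cases h5 : q = i
    · subst h5
      by_cases h3 : p = j
      · subst h3; simp [hpq', hpq'.symm, hd]
      · by_cases h4 : q = j
        · subst h4; simp [hpq', hs]
        · simp [h3, h4, hpq', h1 j (Ne.symm h3) (Ne.symm h4)]
    · simp [h2, h5, h1 i (Ne.symm h2) (Ne.symm h5)]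

omit [CharP K 2] in
lemma center_baseChange {k : Type*} [Field k] [Algebra k K] (N : Type*) [LieRing N]
    [LieAlgebra k N] (hN : ∀ z : N, (∀ x : N, ⁅x, z⁆ = 0) → z = 0) (z : K ⊗[k] N)
    (hz : ∀ x : K ⊗[k] N, ⁅x, z⁆ = 0) : z = 0 := by
  classical
  let b := Module.Free.chooseBasis k K
  let c := TensorProduct.equivFinsuppOfBasisLeft (N := N) b
  have key : ∀ (x : N) (w : K ⊗[k] N) i, c ⁅(1 : K) ⊗ₜ[k] x, w⁆ i = ⁅x, c w i⁆ := by
    intro x w i
    induction w using TensorProduct.induction_on with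
    | zero => simp
    | tmul a y =>
      rw [LieAlgebra.ExtendScalars.bracket_tmul, one_mul]
      simp [c]
    | add u v hu hv => simp only [lie_add, map_add, Finsupp.add_apply, hu, hv]
  apply c.injective
  ext i
  rw [map_zero, Finsupp.zero_apply]
  apply hN
  intro x
  rw [← key, hz]; simp

universe u

/-- Over every field of characteristic two there is a simple 15-dimensional Lie algebra with a thin
decomposition such that no graded subalgebra is a scalar extension of a simple 7-dimensional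
Lie algebra over the prime field. -/
theorem result (K : Type u) [Field K] [CharP K 2] [Algebra (ZMod 2) K] :
    ∃ (L : Type u) (_ : LieRing L) (_ : LieAlgebra K L) (_ : FiniteDimensional K L),
      LieAlgebra.IsSimple K L ∧ finrank K L = 15 ∧
      ∃ t : Fin 4 → Module.End K L, IsThin t ∧
        ∀ M : LieSubalgebra K L, IsGraded t M →
          ∀ (N : Type) [LieRing N] [LieAlgebra (ZMod 2) N], LieAlgebra.IsSimple (ZMod 2) N →
            finrank (ZMod 2) N = 7 → IsEmpty (M ≃ₗ⁅K⁆ (K ⊗[ZMod 2] N)) := by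
  refine ⟨Alt K, inferInstance, inferInstance, inferInstance, isSimple, finrank_alt, tt K, isThin,
    ?_⟩
  intro M hM N _ _ hN h7
  refine ⟨fun f => ?_⟩
  have : Fact (Nat.Prime 2) := ⟨Nat.prime_two⟩
  have hM7 : finrank K M = 7 := by
    rw [f.toLinearEquiv.finrank_eq, Module.finrank_baseChange, h7]
  obtain ⟨z, hz0, hz⟩ := graded_center M hM hM7
  apply hz0
  apply f.injective
  rw [map_zero]
  refine center_baseChange (k := ZMod 2) N ?_ _ ?_
  · intro w hw
    have hc : w ∈ LieAlgebra.center (ZMod 2) N := hw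
    rwa [LieAlgebra.center_eq_bot, LieSubmodule.mem_bot] at hc
  · intro x
    obtain ⟨y, rfl⟩ := f.surjective x
    rw [← LieHom.map_lie, hz, map_zero]

end Pool.Agent.Results.MP_9adac4_al.NoWH
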