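import Pool.Agent.H74.ThinBasic

namespace Pool.Agent.Results.MP_9adac4_al.ProperSimple

open Module Pool.Agent.H74.Thin

variable {K L : Type*} [Field K] [LieRing L] [LieAlgebra K L]

lemma exists_gen [FiniteDimensional K L] {n : ℕ} {t : Fin n → Module.End K L} (h : IsThin t) :
    ∃ e : (Fin n → ZMod 2) → L, (∀ α, wt t α = K ∙ e α) ∧ (∀ α, α ≠ 0 → e α ≠ 0) ∧
      Submodule.span K (Set.range e) = ⊤ := by
  classical
  have hc : ∀ i j, t i * t j = t j * t i := fun i j =>
    h.torus.2.1 _ (Submodule.subset_span ⟨i, rfl⟩) _ (Submodule.subset_span ⟨j, rfl⟩)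
  have hex : ∀ α : Fin n → ZMod 2, ∃ x : L, wt t α = K ∙ x ∧ (α ≠ 0 → x ≠ 0) := by
    intro α
    by_cases hα : α = 0
    · subst hα
      exact ⟨0, by simp [h.zero], fun hh => absurd rfl hh⟩
    · have h1 := h.one α hα
      have hne : wt t α ≠ ⊥ := by
        intro hb; rw [hb] at h1; simp at h1
      obtain ⟨x, hx, hx0⟩ := Submodule.exists_mem_ne_zero_of_ne_bot hne
      refine ⟨x, ?_, fun _ => hx0⟩
      symm
      apply Submodule.eq_of_le_of_finrank_eq
      · rwa [Submodule.span_singleton_le_iff_mem]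
      · rw [finrank_span_singleton hx0, h1]
  choose e he he0 using hex
  refine ⟨e, he, he0, ?_⟩
  have hind := (wt_indep hc).comp (f := (Subtype.val : {α : Fin n → ZMod 2 // α ≠ 0} → _))
    Subtype.val_injective
  have hli : LinearIndependent K (fun α : {α : Fin n → ZMod 2 // α ≠ 0} => e α.1) := by
    refine iSupIndep.linearIndependent _ hind (fun α => ?_) (fun α => he0 α.1 α.2)
    show e α.1 ∈ wt t α.1
    rw [he]; exact Submodule.mem_span_singleton_self _
  have hcard : Fintype.card {α : Fin n → ZMod 2 // α ≠ 0} = finrank K L := by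
    rw [h.dim, Fintype.card_subtype_compl, Fintype.card_subtype_eq]
    simp
  have := hli.span_eq_top_of_card_eq_finrank' hcard
  rw [eq_top_iff, ← this]
  apply Submodule.span_mono
  rintro _ ⟨α, rfl⟩
  exact ⟨α.1, rfl⟩

lemma exists_sq_ne [CharP K 2] {n : ℕ} {t : Fin n → Module.End K L} (h : IsThin t) (hn : 0 < n)
    {ι : Type*} {e : ι → L} (hsp : Submodule.span K (Set.range e) = ⊤) :
    ∃ α, LieAlgebra.ad K L (e α) * LieAlgebra.ad K L (e α) ≠ 0 := by
  by_contra hcon
  push Not at hcon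
  let R : Submodule K (Module.End K L) :=
    { carrier := {a | ∃ x, LieAlgebra.ad K L x = a}
      add_mem' := by rintro _ _ ⟨x, rfl⟩ ⟨y, rfl⟩; exact ⟨x + y, by ext; simp⟩
      zero_mem' := ⟨0, by ext; simp⟩
      smul_mem' := by rintro c _ ⟨x, rfl⟩; exact ⟨c • x, by ext; simp⟩ }
  have hR : ∀ a, a ∈ R ↔ ∃ x, LieAlgebra.ad K L x = a := fun a => Iff.rfl
  have hbr : ∀ x y : L, LieAlgebra.ad K L x * LieAlgebra.ad K L y -
      LieAlgebra.ad K L y * LieAlgebra.ad K L x = LieAlgebra.ad K L ⁅x, y⁆ := by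
    intro x y
    ext z
    simp only [LinearMap.sub_apply, Module.End.mul_apply, LieAlgebra.ad_apply, lie_lie]
  have hsq : ∀ x : L, LieAlgebra.ad K L x * LieAlgebra.ad K L x ∈ R := by
    intro x
    have hx : x ∈ Submodule.span K (Set.range e) := hsp ▸ Submodule.mem_top
    induction hx using Submodule.span_induction with
    | mem x hx => obtain ⟨α, rfl⟩ := hx; rw [hcon α]; exact R.zero_mem
    | zero => simp
    | add x y _ _ hx hy =>
      have : LieAlgebra.ad K L (x + y) * LieAlgebra.ad K L (x + y) =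
          LieAlgebra.ad K L x * LieAlgebra.ad K L x + LieAlgebra.ad K L y * LieAlgebra.ad K L y +
            LieAlgebra.ad K L ⁅x, y⁆ := by
        rw [← hbr, map_add, sub_eq_add_neg, neg_end (K := K)]
        noncomm_ring
      rw [this]
      exact R.add_mem (R.add_mem hx hy) ⟨_, rfl⟩
    | smul c x _ hx =>
      rw [map_smul, smul_mul_smul_comm]
      exact R.smul_mem _ hx
  have hle : env K L ≤ R := by
    refine env_le (fun x => ⟨x, rfl⟩) ?_ ?_
    · rintro _ ⟨x, rfl⟩ _ ⟨y, rfl⟩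
      exact ⟨⁅x, y⁆, (hbr x y).symm⟩
    · rintro _ ⟨x, rfl⟩
      exact hsq x
  have hm : t ⟨0, hn⟩ ∈ Submodule.span K (Set.range t) := Submodule.subset_span ⟨_, rfl⟩
  obtain ⟨x, hx⟩ := (hR _).1 (hle (h.torus.1 hm))
  have := h.inter x (hx ▸ hm)
  exact h.indep.ne_zero ⟨0, hn⟩ (hx ▸ this)

lemma exists_line [CharP K 2] [LieAlgebra.IsSimple K L] {n : ℕ} {t : Fin n → Module.End K L}
    (h : IsThin t) {e : (Fin n → ZMod 2) → L} (he : ∀ α, wt t α = K ∙ e α)
    (he0 : ∀ α, α ≠ 0 → e α ≠ 0) (hsp : Submodule.span K (Set.range e) = ⊤)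
    {α : Fin n → ZMod 2} (hα : LieAlgebra.ad K L (e α) * LieAlgebra.ad K L (e α) ≠ 0) :
    ∃ β, ⁅e α, ⁅e α, e β⁆⁆ ≠ 0 ∧ ⁅e β, e (α + β)⁆ ≠ 0 := by
  classical
  have hc : ∀ i j, t i * t j = t j * t i := fun i j =>
    h.torus.2.1 _ (Submodule.subset_span ⟨i, rfl⟩) _ (Submodule.subset_span ⟨j, rfl⟩)
  have hte : ∀ i, t i ∈ env K L := fun i => h.torus.1 (Submodule.subset_span ⟨i, rfl⟩)
  have hem : ∀ β, e β ∈ wt t β := fun β => by rw [he]; exact Submodule.mem_span_singleton_self _
  have haa : ∀ β : Fin n → ZMod 2, β + β = 0 := fun β => by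
    funext i; simp only [Pi.add_apply, Pi.zero_apply]; exact CharTwo.add_self_eq_zero _
  set d := LieAlgebra.ad K L (e α) * LieAlgebra.ad K L (e α) with hd
  have hdx : ∀ x, d x = ⁅e α, ⁅e α, x⁆⁆ := fun x => rfl
  have hder : ∀ x y : L, d ⁅x, y⁆ = ⁅d x, y⁆ + ⁅x, d y⁆ := sq_der (ad_der (e α))
  have hdiag : ∀ β, ∃ c : K, d (e β) = c • e β := by
    intro β
    have := lie_mem_wt hte (hem α) (lie_mem_wt hte (hem α) (hem β))
    rw [← add_assoc, haa, zero_add, he, Submodule.mem_span_singleton] at this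
    obtain ⟨c, hc⟩ := this
    exact ⟨c, hc.symm⟩
  by_contra hcon
  push Not at hcon
  let R : Submodule K L := Submodule.span K {x | ∃ β, d (e β) ≠ 0 ∧ x = e β}
  have hF1 : ∀ δ, d (e δ) = 0 → ∀ x ∈ R, ⁅e δ, x⁆ ∈ R := by
    intro δ hδ x hx
    induction hx using Submodule.span_induction with
    | mem x hx =>
      obtain ⟨β, hβ, rfl⟩ := hx
      have h1 := lie_mem_wt hte (hem δ) (hem β)
      rw [he, Submodule.mem_span_singleton] at h1
      obtain ⟨c, hc⟩ := h1
      by_cases hz : d (e (δ + β)) = 0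
      · obtain ⟨l, hl⟩ := hdiag β
        have hl0 : l ≠ 0 := by rintro rfl; apply hβ; simpa using hl
        have h2 := hder (e δ) (e β)
        rw [hδ, hl, zero_lie, zero_add, lie_smul, ← hc, map_smul, hz, smul_zero] at h2
        have h3 : c • e (δ + β) = 0 := by
          rcases smul_eq_zero.1 h2.symm with h3 | h3
          · exact absurd h3 hl0
          · exact h3
        rw [← hc, h3]; exact R.zero_mem
      · rw [← hc]
        exact R.smul_mem _ (Submodule.subset_span ⟨δ + β, hz, rfl⟩)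
    | zero => simp
    | add x y _ _ hx hy => rw [lie_add]; exact R.add_mem hx hy
    | smul c x _ hx => rw [lie_smul]; exact R.smul_mem _ hx
  let I : Submodule K L := R ⊔ Submodule.span K {z | ∃ x ∈ R, ∃ y ∈ R, z = ⁅x, y⁆}
  have hRI : ∀ x ∈ R, x ∈ I := fun x hx => Submodule.mem_sup_left hx
  have hBI : ∀ x ∈ R, ∀ y ∈ R, ⁅x, y⁆ ∈ I := fun x hx y hy =>
    Submodule.mem_sup_right (Submodule.subset_span ⟨x, hx, y, hy, rfl⟩)
  have hall : ∀ (P : L → Prop), (∀ β, P (e β)) → P 0 → (∀ x y, P x → P y → P (x + y)) →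
      (∀ (c : K) x, P x → P (c • x)) → ∀ z, P z := by
    intro P h1 h2 h3 h4 z
    have hz : z ∈ Submodule.span K (Set.range e) := hsp ▸ Submodule.mem_top
    induction hz using Submodule.span_induction with
    | mem x hx => obtain ⟨β, rfl⟩ := hx; exact h1 β
    | zero => exact h2
    | add x y _ _ hx hy => exact h3 x y hx hy
    | smul c x _ hx => exact h4 c x hx
  have hF2 : ∀ z : L, ∀ x ∈ R, ⁅z, x⁆ ∈ I := by
    intro z x hx
    refine hall (fun z => ⁅z, x⁆ ∈ I) (fun δ => ?_) (by simp) (fun a b ha hb => ?_)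
      (fun c a ha => ?_) z
    · by_cases hδ : d (e δ) = 0
      · exact hRI _ (hF1 δ hδ x hx)
      · exact hBI _ (Submodule.subset_span ⟨δ, hδ, rfl⟩) _ hx
    · rw [add_lie]; exact I.add_mem ha hb
    · rw [smul_lie]; exact I.smul_mem _ ha
  have hF3 : ∀ z : L, ∀ x ∈ R, ∀ y ∈ R, ⁅z, ⁅x, y⁆⁆ ∈ I := by
    intro z x hx y hy
    refine hall (fun z => ⁅z, ⁅x, y⁆⁆ ∈ I) (fun δ => ?_) (by simp) (fun a b ha hb => ?_)
      (fun c a ha => ?_) z
    · by_cases hδ : d (e δ) = 0
      · rw [leibniz_lie]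
        exact I.add_mem (hBI _ (hF1 δ hδ x hx) _ hy) (hBI _ hx _ (hF1 δ hδ y hy))
      · rw [← lie_skew]
        exact I.neg_mem (hF2 _ _ (Submodule.subset_span ⟨δ, hδ, rfl⟩))
    · rw [add_lie]; exact I.add_mem ha hb
    · rw [smul_lie]; exact I.smul_mem _ ha
  have hI : ∀ z : L, ∀ x ∈ I, ⁅z, x⁆ ∈ I := by
    intro z x hx
    obtain ⟨a, ha, b, hb, rfl⟩ := Submodule.mem_sup.1 hx
    rw [lie_add]
    refine I.add_mem (hF2 z a ha) ?_
    clear hx
    induction hb using Submodule.span_induction with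
    | mem b hb => obtain ⟨x, hx, y, hy, rfl⟩ := hb; exact hF3 z x hx y hy
    | zero => simp
    | add x y _ _ hx hy => rw [lie_add]; exact I.add_mem hx hy
    | smul c x _ hx => rw [lie_smul]; exact I.smul_mem _ hx
  let J : LieIdeal K L := { toSubmodule := I, lie_mem := fun {z x} hx => hI z x hx }
  let U : Submodule K L := ⨆ (β) (_ : β ≠ α), wt t β
  have hU : ∀ β, β ≠ α → ∀ x ∈ wt t β, x ∈ U := fun β hβ x hx =>
    Submodule.mem_iSup_of_mem β (Submodule.mem_iSup_of_mem hβ hx)
  have hdα : d (e α) = 0 := by rw [hdx, lie_self, lie_zero]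
  have hRU : R ≤ U := by
    rw [Submodule.span_le]
    rintro _ ⟨β, hβ, rfl⟩
    refine hU β ?_ _ (hem β)
    rintro rfl
    exact hβ hdα
  have hBU : ∀ x ∈ R, ∀ y ∈ R, ⁅x, y⁆ ∈ U := by
    intro x hx y hy
    induction hx using Submodule.span_induction with
    | mem x hx =>
      obtain ⟨β, hβ, rfl⟩ := hx
      induction hy using Submodule.span_induction with
      | mem y hy =>
        obtain ⟨γ, -, rfl⟩ := hy
        by_cases hγ : β + γ = α
        · have : γ = α + β := by
            rw [← hγ, add_comm β γ, add_assoc, haa, add_zero]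
          rw [this, hcon β hβ]; exact U.zero_mem
        · exact hU _ hγ _ (lie_mem_wt hte (hem β) (hem γ))
      | zero => simp
      | add x y _ _ hx hy => rw [lie_add]; exact U.add_mem hx hy
      | smul c x _ hx => rw [lie_smul]; exact U.smul_mem _ hx
    | zero => simp
    | add a b _ _ ha hb => rw [add_lie]; exact U.add_mem ha hb
    | smul c a _ ha => rw [smul_lie]; exact U.smul_mem _ ha
  have hIU : I ≤ U := by
    refine sup_le hRU ?_
    rw [Submodule.span_le]
    rintro _ ⟨x, hx, y, hy, rfl⟩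
    exact hBU x hx y hy
  have hα0 : α ≠ 0 := by
    rintro rfl
    have h0 := hem 0
    rw [h.zero, Submodule.mem_bot] at h0
    apply hα
    rw [hd, h0]; simp
  rcases LieAlgebra.IsSimple.eq_bot_or_eq_top J with hJ | hJ
  · apply hα
    ext z
    refine hall (fun z => d z = (0 : Module.End K L) z) (fun β => ?_) (by simp)
      (fun a b ha hb => ?_) (fun c a ha => ?_) z
    · by_contra hβ
      have hβ' : d (e β) ≠ 0 := by simpa using hβ
      have hm : e β ∈ J := hRI _ (Submodule.subset_span ⟨β, hβ', rfl⟩)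
      rw [hJ, LieSubmodule.mem_bot] at hm
      apply hβ'; rw [hm]; simp
    · rw [map_add, map_add, ha, hb]
    · rw [map_smul, map_smul, ha]
  · have hm : e α ∈ J := hJ ▸ LieSubmodule.mem_top _
    have hdis := wt_indep hc α
    exact he0 α hα0 ((Submodule.disjoint_def.1 hdis) _ (hem α) (hIU hm))

lemma simple_three {x y z : L} {a b c : K} (ha : a ≠ 0) (hb : b ≠ 0) (hc : c ≠ 0) (hz : z ≠ 0)
    (hxy : ⁅x, y⁆ = a • z) (hxz : ⁅x, z⁆ = b • y) (hyz : ⁅y, z⁆ = c • x)
    (M : LieSubalgebra K L) (hM : M.toSubmodule = Submodule.span K {x, y, z}) :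
    LieAlgebra.IsSimple K M := by
  have hmem : ∀ w, w ∈ M ↔ w ∈ Submodule.span K {x, y, z} := fun w => by rw [← hM]; rfl
  have hx : x ∈ M := (hmem _).2 (Submodule.subset_span (by simp))
  have hy : y ∈ M := (hmem _).2 (Submodule.subset_span (by simp))
  have hz' : z ∈ M := (hmem _).2 (Submodule.subset_span (by simp))
  set X : M := ⟨x, hx⟩
  set Y : M := ⟨y, hy⟩
  set Z : M := ⟨z, hz'⟩
  have hXY : ⁅X, Y⁆ = a • Z := Subtype.ext hxy
  have hXZ : ⁅X, Z⁆ = b • Y := Subtype.ext hxz
  have hYZ : ⁅Y, Z⁆ = c • X := Subtype.ext hyz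
  have hYX : ⁅Y, X⁆ = -(a • Z) := by rw [← lie_skew, hXY]
  have hZX : ⁅Z, X⁆ = -(b • Y) := by rw [← lie_skew, hXZ]
  have hZY : ⁅Z, Y⁆ = -(c • X) := by rw [← lie_skew, hYZ]
  have hdec : ∀ w : M, ∃ u v s : K, w = u • X + v • Y + s • Z := by
    intro w
    have hw := (hmem _).1 w.2
    rw [Submodule.mem_span_triple] at hw
    obtain ⟨u, v, s, hw⟩ := hw
    exact ⟨u, v, s, Subtype.ext hw.symm⟩
  refine ⟨fun J => ?_, ?_⟩
  · by_cases hJ : J = ⊥
    · exact Or.inl hJ
    right
    have hs : ∀ (r : K) (w : M), r ≠ 0 → r • w ∈ J → w ∈ J := fun r w hr hw => by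
      have := J.smul_mem r⁻¹ hw
      rwa [smul_smul, inv_mul_cancel₀ hr, one_smul] at this
    have h1 : X ∈ J → Y ∈ J := fun hX => by
      have : ⁅Z, X⁆ ∈ J := J.lie_mem hX
      rw [hZX, neg_mem_iff] at this
      exact hs _ _ hb this
    have h2 : Y ∈ J → Z ∈ J := fun hY => by
      have : ⁅X, Y⁆ ∈ J := J.lie_mem hY
      rw [hXY] at this
      exact hs _ _ ha this
    have h3 : Z ∈ J → X ∈ J := fun hZ => by
      have : ⁅Y, Z⁆ ∈ J := J.lie_mem hZ
      rw [hYZ] at this
      exact hs _ _ hc this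
    have hXJ : X ∈ J := by
      obtain ⟨w, hw, hw0⟩ : ∃ w ∈ J, w ≠ 0 := by
        by_contra hcon
        push Not at hcon
        exact hJ ((LieSubmodule.eq_bot_iff J).2 hcon)
      obtain ⟨u, v, s, rfl⟩ := hdec w
      by_cases hu : u = 0
      · by_cases hv : v = 0
        · have hs0 : s ≠ 0 := by rintro rfl; apply hw0; simp [hu, hv]
          rw [hu, hv, zero_smul, zero_smul, zero_add, zero_add] at hw
          exact h3 (hs _ _ hs0 hw)
        · have : ⁅Y, ⁅X, u • X + v • Y + s • Z⁆⁆ ∈ J := J.lie_mem (J.lie_mem hw)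
          simp only [lie_add, lie_smul, lie_self, hXY, hXZ, hYZ, smul_zero, zero_add, add_zero,
            smul_smul] at this
          exact hs _ _ (mul_ne_zero (mul_ne_zero hv ha) hc) this
      · have : ⁅X, ⁅Y, u • X + v • Y + s • Z⁆⁆ ∈ J := J.lie_mem (J.lie_mem hw)
        simp only [lie_add, lie_smul, lie_self, hYX, hXZ, hYZ, smul_zero, add_zero,
          lie_neg, smul_smul, smul_neg, neg_mem_iff] at this
        exact h3 (h2 (hs _ _ (mul_ne_zero (mul_ne_zero hu ha) hb) this))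
    rw [eq_top_iff]
    intro w _
    obtain ⟨u, v, s, rfl⟩ := hdec w
    exact J.add_mem (J.add_mem (J.smul_mem _ hXJ) (J.smul_mem _ (h1 hXJ)))
      (J.smul_mem _ (h2 (h1 hXJ)))
  · intro hab
    have h0 : ⁅X, Y⁆ = 0 := trivial_lie_zero _ _ _ _
    rw [hXY, smul_eq_zero] at h0
    rcases h0 with h0 | h0
    · exact ha h0
    · exact hz (congrArg Subtype.val h0)

/-- Every simple Lie algebra of dimension more than three with a thin decomposition has a proper
simple graded subalgebra. -/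
theorem result (K L : Type*) [Field K] [CharP K 2] [LieRing L] [LieAlgebra K L]
    [FiniteDimensional K L] [LieAlgebra.IsSimple K L] (hL : 3 < finrank K L)
    (n : ℕ) (t : Fin n → Module.End K L) (h : IsThin t) :
    ∃ M : LieSubalgebra K L, IsGraded t M ∧ M ≠ ⊤ ∧ LieAlgebra.IsSimple K M := by
  classical
  obtain ⟨e, he, he0, hsp⟩ := exists_gen h
  have hn : 0 < n := by
    rcases Nat.eq_zero_or_pos n with rfl | hn
    · rw [h.dim] at hL; simp at hL
    · exact hn
  obtain ⟨α, hα⟩ := exists_sq_ne h hn hsp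
  obtain ⟨β, h1, h2⟩ := exists_line h he he0 hsp hα
  have hte : ∀ i, t i ∈ env K L := fun i => h.torus.1 (Submodule.subset_span ⟨i, rfl⟩)
  have hem : ∀ β, e β ∈ wt t β := fun β => by rw [he]; exact Submodule.mem_span_singleton_self _
  have haa : ∀ β : Fin n → ZMod 2, β + β = 0 := fun β => by
    funext i; simp only [Pi.add_apply, Pi.zero_apply]; exact CharTwo.add_self_eq_zero _
  have he00 : e 0 = 0 := by
    have h0 := hem 0
    rwa [h.zero, Submodule.mem_bot] at h0
  have hbr : ∀ γ δ ε, γ + δ = ε → ∃ c : K, ⁅e γ, e δ⁆ = c • e ε := by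
    intro γ δ ε hε
    have := lie_mem_wt hte (hem γ) (hem δ)
    rw [hε, he, Submodule.mem_span_singleton] at this
    obtain ⟨c, hc⟩ := this
    exact ⟨c, hc.symm⟩
  obtain ⟨a, ha⟩ := hbr α β (α + β) rfl
  obtain ⟨b, hb⟩ := hbr α (α + β) β (by rw [← add_assoc, haa, zero_add])
  obtain ⟨c, hc⟩ := hbr β (α + β) α (by rw [add_comm α β, ← add_assoc, haa, zero_add])
  have ha0 : a ≠ 0 := by rintro rfl; apply h1; rw [ha]; simp
  have hb0 : b ≠ 0 := by rintro rfl; apply h1; rw [ha, lie_smul, hb]; simp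
  have hc0 : c ≠ 0 := by rintro rfl; apply h2; rw [hc]; simp
  have hz0 : e (α + β) ≠ 0 := by intro hz; apply h2; rw [hz]; simp
  have hx0 : e α ≠ 0 := by intro hz; apply h1; rw [hz]; simp
  have hy0 : e β ≠ 0 := by intro hz; apply h2; rw [hz]; simp
  let N : Submodule K L := Submodule.span K {e α, e β, e (α + β)}
  have hx : e α ∈ N := Submodule.subset_span (by simp)
  have hy : e β ∈ N := Submodule.subset_span (by simp)
  have hz : e (α + β) ∈ N := Submodule.subset_span (by simp)
  have hyx : ⁅e β, e α⁆ = -(a • e (α + β)) := by rw [← lie_skew, ha]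
  have hzx : ⁅e (α + β), e α⁆ = -(b • e β) := by rw [← lie_skew, hb]
  have hzy : ⁅e (α + β), e β⁆ = -(c • e α) := by rw [← lie_skew, hc]
  let M : LieSubalgebra K L :=
    { toSubmodule := N
      lie_mem' := by
        intro p q hp hq
        have hp' : p ∈ Submodule.span K {e α, e β, e (α + β)} := hp
        have hq' : q ∈ Submodule.span K {e α, e β, e (α + β)} := hq
        rw [Submodule.mem_span_triple] at hp' hq'
        obtain ⟨u, v, s, rfl⟩ := hp'
        obtain ⟨u', v', s', rfl⟩ := hq'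
        show _ ∈ N
        simp only [lie_add, add_lie, lie_smul, smul_lie, lie_self, ha, hb, hc, hyx, hzx, hzy,
          smul_zero, zero_add, add_zero]
        repeat' first
          | exact hx
          | exact hy
          | exact hz
          | apply N.add_mem
          | apply N.smul_mem
          | apply N.neg_mem }
  refine ⟨M, ⟨{α, β, α + β}, ?_, ?_⟩, ?_, simple_three ha0 hb0 hc0 hz0 ha hb hc M rfl⟩
  · intro h0
    simp only [Set.mem_insert_iff, Set.mem_singleton_iff] at h0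
    rcases h0 with h0 | h0 | h0
    · exact hx0 (h0 ▸ he00)
    · exact hy0 (h0 ▸ he00)
    · exact hz0 (h0 ▸ he00)
  · show N = _
    rw [iSup_insert, iSup_insert, iSup_singleton, he, he, he, ← Submodule.span_insert,
      ← Submodule.span_insert]
  · intro hM
    have hN : N = ⊤ := by
      exact (congrArg LieSubalgebra.toSubmodule hM).trans LieSubalgebra.top_toSubmodule
    have h3 : finrank K N ≤ 3 := by
      have := finrank_span_le_card (R := K) ({e α, e β, e (α + β)} : Set L)
      refine this.trans ?_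
      rw [Set.toFinset_insert, Set.toFinset_insert, Set.toFinset_singleton]
      exact Finset.card_le_three
    rw [hN, finrank_top] at h3
    omega

end Pool.Agent.Results.MP_9adac4_al.ProperSimple
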